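import Pool.Agent.helper69.AD.GS6
import Pool.Agent.helper46.AG.PT1
import Pool.Agent.helper13.AG.HX1

/-!
Project ad, module XC3: the distance of two crossing points on a closed geodesic.
-/

open scoped MatrixGroups LinearAlgebra.Projectivization
open Matrix UpperHalfPlane

namespace AdSBend

/-- powers of a representation conjugate to the inclusion -/
theorem XC3_pow (f : Bd ≃ Bd) (r : SL(2, ℝ) → SL(2, ℝ)) (Γ : Subgroup SL(2, ℝ))
    (hf : IsConjBy Γ f r) (g : SL(2, ℝ)) (hg : g ∈ Γ) (n : ℕ) (x : Bd) :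
    f (g ^ n • x) = (r g) ^ n • f x := by
  induction n with
  | zero => rw [pow_zero, pow_zero, one_smul, one_smul]
  | succ n ih => rw [pow_succ', pow_succ', mul_smul, mul_smul, hf.2 g hg, ih]

/-- the side of a point of the imaginary axis with respect to two real points -/
theorem XC3_side (z : ℍ) (hz : z.re = 0) (u v : ℝ) (hu : u ≠ v) (h : side z (bPt u) (bPt v) = 0) :
    u * v + z.im ^ 2 = 0 := by
  obtain ⟨a, ha⟩ := Projectivization.exists_smul_eq_mk_rep ℝ (![u, 1] : Fin 2 → ℝ)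
    (by intro h; simpa using congrFun h 1)
  obtain ⟨b, hb⟩ := Projectivization.exists_smul_eq_mk_rep ℝ (![v, 1] : Fin 2 → ℝ)
    (by intro h; simpa using congrFun h 1)
  have ha' : (bPt u).rep = (a : ℝ) • ![u, 1] := ha.symm
  have hb' : (bPt v).rep = (b : ℝ) • ![v, 1] := hb.symm
  have ha0 : (a : ℝ) ≠ 0 := a.ne_zero
  have hb0 : (b : ℝ) ≠ 0 := b.ne_zero
  unfold side dt at h
  rw [ha', hb'] at h
  simp only [Pi.smul_apply, smul_eq_mul, Matrix.cons_val_zero, Matrix.cons_val_one, hz] at h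
  have h2 : ((a : ℝ) * b) ^ 2 * (u - v) * (u * v + z.im ^ 2) = 0 := by
    linear_combination h
  have h3 : ((a : ℝ) * b) ^ 2 * (u - v) ≠ 0 :=
    mul_ne_zero (pow_ne_zero 2 (mul_ne_zero ha0 hb0)) (sub_ne_zero.2 hu)
  exact (mul_eq_zero.1 h2).resolve_left h3

theorem XC3_Dm_pow (F g : SL(2, ℝ)) (l : ℝ) (h : PEq g (F * Dm l * F⁻¹)) (n : ℕ) :
    ∃ G : SL(2, ℝ), PEq (g ^ n) G ∧ G = (F * Dm l * F⁻¹) ^ n := by
  refine ⟨_, ?_, rfl⟩
  induction n with
  | zero => left; rw [pow_zero, pow_zero]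
  | succ n ih => rw [pow_succ, pow_succ]; exact HX1_peq_mul ih h

/-- powers in a frame -/
theorem XC3_move (h7 : BD7_stmt) (F g : SL(2, ℝ)) (l : ℝ) (h : PEq g (F * Dm l * F⁻¹)) (n : ℕ)
    (t : ℝ) : g ^ n • (F • bPt t) = F • bPt (Real.exp (n * l) * t) := by
  have hone : ∀ t, g • (F • bPt t) = F • bPt (Real.exp l * t) := by
    intro t
    rw [HX1_peq_smul h, mul_smul, mul_smul, inv_smul_smul, h7.2.2.2.2.2.2.1]
  induction n with
  | zero => simp
  | succ n ih =>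
    rw [pow_succ', mul_smul, ih, hone]
    congr 2
    rw [← mul_assoc, ← Real.exp_add]
    congr 2
    push_cast
    ring

theorem XC3_move_inv (h7 : BD7_stmt) (F g : SL(2, ℝ)) (l : ℝ) (h : PEq g (F * Dm l * F⁻¹))
    (n : ℕ) (t : ℝ) : (g⁻¹) ^ n • (F • bPt t) = F • bPt (Real.exp (-(n * l)) * t) := by
  have h2 := XC3_move h7 F g l h n (Real.exp (-(n * l)) * t)
  rw [← mul_assoc, ← Real.exp_add, add_neg_cancel, Real.exp_zero, one_mul] at h2
  rw [← h2, inv_pow, inv_smul_smul]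

/-- the linked leaf has an endpoint on each side -/
theorem XC3_ends (p c : Bd × Bd) (h : Linked p.1 p.2 c.1 c.2) : ∃ a b : Bd,
    (c = (a, b) ∨ c = (b, a)) ∧ Cyc p.1 a p.2 ∧ Cyc p.1 p.2 b := by
  rcases h with h | h
  · exact ⟨c.1, c.2, Or.inl rfl, h.1, h.2⟩
  · exact ⟨c.2, c.1, Or.inr rfl, h.1, h.2⟩

theorem XC3_peq_pos (g : SL(2, ℝ)) : PEq g (pos g) := by
  unfold pos
  split_ifs
  · exact Or.inl rfl
  · right; rw [neg_neg]

/-- the height of the crossing point -/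
theorem XC3_height (pt1 : PT1_stmt) (pt5 : PT5_stmt) (F : SL(2, ℝ)) (q : Bd × Bd) (hF : IsFrame F q)
    (x : ℍ) (d : Bd × Bd) (s u : ℝ) (hs : s < 0) (hu : 0 < u)
    (hd : d = (F • bPt s, F • bPt u) ∨ d = (F • bPt u, F • bPt s))
    (h1 : side x q.1 q.2 = 0) (h2 : side x d.1 d.2 = 0) :
    (F⁻¹ • x : ℍ).re = 0 ∧ 2 * Real.log (F⁻¹ • x : ℍ).im = Real.log (-s) + Real.log u := by
  set z : ℍ := F⁻¹ • x with hz
  have hx : F • z = x := by rw [hz, smul_inv_smul]
  have hre : z.re = 0 := by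
    obtain ⟨a1, a2⟩ := pt5.1 F q z hF
    rw [hx, h1] at a1 a2
    have b1 : ¬ (0 < z.re) := fun h => lt_irrefl _ (a1.2 h)
    have b2 : ¬ (z.re < 0) := fun h => lt_irrefl _ (a2.2 h)
    linarith [not_lt.1 b1, not_lt.1 b2]
  refine ⟨hre, ?_⟩
  have hsu : s * u + z.im ^ 2 = 0 := by
    rcases hd with hd | hd
    · rw [hd, ← hx] at h2
      exact XC3_side z hre s u (by linarith) ((pt1 F z _ _).2.2.1.1 h2)
    · rw [hd, ← hx] at h2
      have := XC3_side z hre u s (by linarith) ((pt1 F z _ _).2.2.1.1 h2)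
      linarith
  have h3 : z.im ^ 2 = (-s) * u := by linarith
  have h4 := congrArg Real.log h3
  rw [Real.log_pow, Real.log_mul (by linarith) hu.ne'] at h4
  exact_mod_cast h4

theorem XC3 (h2 : BD2_stmt) (h4 : BD4_stmt) (h6 : BD6_stmt) (h7 : BD7_stmt) (h8 : BD8_stmt)
    (h11 : BD11_stmt) (pt1 : PT1_stmt) (pt5 : PT5_stmt) (g1 : GM1_stmt) (g7 : GM7_stmt) :
    XC3_stmt := by
  intro Γ hΓ p c c' hp hc hc'
  obtain ⟨hgm, hga, -⟩ := g1 Γ hΓ p hp
  set g := gen Γ p with hg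
  obtain ⟨a, b, hab, ha, hb⟩ := XC3_ends p c hc
  obtain ⟨a', b', hab', ha', hb'⟩ := XC3_ends p c' hc'
  have hrot := h4.2.1
  have hb1 := hrot _ _ _ hb
  have hb1' := hrot _ _ _ hb'
  obtain ⟨⟨n1, k1⟩, ⟨n2, k2⟩, -⟩ := g7 g p b b' hga hb1 hb1'
  have hgi : Attracts g⁻¹ (p.2, p.1) := h8.2.2.2.2.2.2.1 g p hga
  obtain ⟨⟨n3, k3⟩, ⟨n4, k4⟩, -⟩ := g7 g⁻¹ (p.2, p.1) a a' hgi ha ha'
  refine ⟨n1 + n2 + n3 + n4, ?_⟩
  intro f r hf x x' x1 x2 x1' x2'
  obtain ⟨-, -, -, -, h11a, -⟩ := h11 Γ f r hf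
  have hra : Attracts (r g) (f p.1, f p.2) := h11a g hgm p hga
  obtain ⟨F, hF⟩ := h6.1 (f p.1, f p.2) hra.1
  obtain ⟨hpos, hlen⟩ := h8.2.1 (r g) F _ hra hF
  set l := len (r g) with hl
  have hpeq : PEq (r g) (F * Dm l * F⁻¹) := by
    rw [← hpos]; exact XC3_peq_pos _
  have hcyc := hf.1
  -- the endpoints in the frame
  have hpos' : ∀ e, Cyc p.2 e p.1 → ∃ t : ℝ, 0 < t ∧ f e = F • bPt t := by
    intro e he
    exact ((h7.1 F (f p.1, f p.2) (f e) hF).2).1 (hcyc _ _ _ he)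
  have hneg' : ∀ e, Cyc p.1 e p.2 → ∃ t : ℝ, t < 0 ∧ f e = F • bPt t := by
    intro e he
    exact ((h7.1 F (f p.1, f p.2) (f e) hF).1).1 (hcyc _ _ _ he)
  obtain ⟨u, hu, hfu⟩ := hpos' b hb1
  obtain ⟨u', hu', hfu'⟩ := hpos' b' hb1'
  obtain ⟨s, hs, hfs⟩ := hneg' a ha
  obtain ⟨s', hs', hfs'⟩ := hneg' a' ha'
  have hord := h7.2.2.2.2.1
  have hinf := h7.2.2.2.2.2.1
  have hb0 : bPt 0 = bZero := h7.2.2.2.1
  have hposord : ∀ t t' : ℝ, 0 < t → 0 < t' →
      Cyc (F • bZero) (F • bPt t) (F • bPt t') → t < t' := by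
    intro t t' ht ht' h
    rw [h2, ← hb0, hord] at h
    rcases h with h | h | h
    · exact h.2
    · linarith [h.2]
    · linarith [h.1]
  have hneginf : ∀ t t' : ℝ, Cyc (F • bInf) (F • bPt t) (F • bPt t') → t < t' := by
    intro t t' h
    rw [h2, hinf] at h
    exact h
  have hF1 : F • bInf = f p.1 := hF.1
  have hF2 : F • bZero = f p.2 := hF.2
  have e1 : u' < Real.exp (n1 * l) * u := by
    have := hcyc _ _ _ k1
    rw [XC3_pow f r Γ hf g hgm, hfu, hfu', XC3_move h7 F (r g) l hpeq, ← hF2] at this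
    exact hposord _ _ hu' (by positivity) this
  have hrinv : ∀ e, f (g⁻¹ • e) = (r g)⁻¹ • f e := by
    intro e
    rw [eq_inv_smul_iff, ← hf.2 g hgm, smul_inv_smul]
  have hrinvn : ∀ (n : ℕ) e, f ((g⁻¹) ^ n • e) = ((r g)⁻¹) ^ n • f e := by
    intro n e
    induction n with
    | zero => rw [pow_zero, pow_zero, one_smul, one_smul]
    | succ n ih => rw [pow_succ', pow_succ', mul_smul, mul_smul, hrinv, ih]
  have e2 : Real.exp (-(n2 * l)) * u < u' := by
    have := hcyc _ _ _ k2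
    rw [hrinvn, hfu, hfu', XC3_move_inv h7 F (r g) l hpeq, ← hF2] at this
    exact hposord _ _ (by positivity) hu' this
  have e3 : s' < Real.exp (-(n3 * l)) * s := by
    have := hcyc _ _ _ k3
    rw [hrinvn, hfs, hfs', XC3_move_inv h7 F (r g) l hpeq] at this
    change Cyc (f p.1) _ _ at this
    rw [← hF1] at this
    exact hneginf _ _ this
  have e4 : Real.exp (n4 * l) * s < s' := by
    have := hcyc _ _ _ k4
    rw [inv_inv, XC3_pow f r Γ hf g hgm, hfs, hfs', XC3_move h7 F (r g) l hpeq] at this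
    change Cyc (f p.1) _ _ at this
    rw [← hF1] at this
    exact hneginf _ _ this
  -- heights
  have hz := XC3_height pt1 pt5 F (f p.1, f p.2) hF x (f c.1, f c.2) s u hs hu (by
    rcases hab with h | h
    · left; rw [h, ← hfs, ← hfu]
    · right; rw [h, ← hfs, ← hfu]) x1 x2
  have hz' := XC3_height pt1 pt5 F (f p.1, f p.2) hF x' (f c'.1, f c'.2) s' u' hs' hu' (by
    rcases hab' with h | h
    · left; rw [h, ← hfs', ← hfu']
    · right; rw [h, ← hfs', ← hfu']) x1' x2'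
  have hdist : dist x x' = |Real.log (F⁻¹ • x : ℍ).im - Real.log (F⁻¹ • x' : ℍ).im| := by
    rw [← dist_smul F⁻¹ x x', UpperHalfPlane.dist_of_re_eq (by rw [hz.1, hz'.1]), Real.dist_eq]
  rw [hdist]
  -- logarithms
  have l1 : Real.log u' < n1 * l + Real.log u := by
    have := Real.log_lt_log hu' e1
    rwa [Real.log_mul (Real.exp_pos _).ne' hu.ne', Real.log_exp] at this
  have l2 : -(n2 * l) + Real.log u < Real.log u' := by
    have := Real.log_lt_log (by positivity) e2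
    rwa [Real.log_mul (Real.exp_pos _).ne' hu.ne', Real.log_exp] at this
  have hs0 : 0 < -s := by linarith
  have hs0' : 0 < -s' := by linarith
  have l3 : -(n3 * l) + Real.log (-s) < Real.log (-s') := by
    have h : Real.exp (-(n3 * l)) * (-s) < -s' := by linarith
    have := Real.log_lt_log (by positivity) h
    rwa [Real.log_mul (Real.exp_pos _).ne' hs0.ne', Real.log_exp] at this
  have l4 : Real.log (-s') < n4 * l + Real.log (-s) := by
    have h : -s' < Real.exp (n4 * l) * (-s) := by linarith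
    have := Real.log_lt_log hs0' h
    rwa [Real.log_mul (Real.exp_pos _).ne' hs0.ne', Real.log_exp] at this
  have p1 : 0 ≤ (n1 : ℝ) * l := by positivity
  have p2 : 0 ≤ (n2 : ℝ) * l := by positivity
  have p3 : 0 ≤ (n3 : ℝ) * l := by positivity
  have p4 : 0 ≤ (n4 : ℝ) * l := by positivity
  push_cast
  rw [abs_le]
  constructor
  · have := hz.2
    have := hz'.2
    nlinarith
  · have := hz.2
    have := hz'.2
    nlinarith

end AdSBend
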