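import Pool.Agent.helper69.AD.GS6
import Pool.Agent.helper46.AG.PT1

/-!
Project ad, module XE0: the attracting points of the elements of the group are dense.
-/

open scoped MatrixGroups LinearAlgebra.Projectivization
open Matrix UpperHalfPlane

namespace AdSBend

/-- the main inequality: `M` moves the half plane to the left of a geodesic that is not too
far -/
theorem XE0_ineq (a b c d r s n : ℝ) (hs : 0 < s) (hdet : a * d - b * c = 1)
    (hac : 0 ≤ a * c) (hbd : 0 ≤ b * d)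
    (h : (a * r + b) * (c * r + d) + a * c * s ^ 2 = -(n * s)) : n * s ≤ |r| := by
  have hP : 0 ≤ (a * d) * (b * c) := by
    have : (a * d) * (b * c) = (a * c) * (b * d) := by ring
    rw [this]; exact mul_nonneg hac hbd
  set P := (a * d) * (b * c) with hPd
  -- |ad + bc| <= 1 + 2 sqrt P
  have h1 : (a * d + b * c) ^ 2 = 1 + 4 * P := by
    have : a * d = 1 + b * c := by linarith
    rw [hPd, this]; ring
  have hsq : Real.sqrt P ^ 2 = P := Real.sq_sqrt hP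
  have hs0 : 0 ≤ Real.sqrt P := Real.sqrt_nonneg _
  have h2 : |a * d + b * c| ≤ 1 + 2 * Real.sqrt P := by
    refine abs_le_of_sq_le_sq ?_ (by linarith)
    rw [h1]
    nlinarith
  -- ac r^2 + bd >= 2 sqrt P |r|
  have h3 : 2 * Real.sqrt P * |r| ≤ a * c * r ^ 2 + b * d := by
    have e1 : (2 * Real.sqrt P * |r|) ^ 2 ≤ (a * c * r ^ 2 + b * d) ^ 2 := by
      have : (2 * Real.sqrt P * |r|) ^ 2 = 4 * P * r ^ 2 := by
        rw [mul_pow, mul_pow, hsq, sq_abs]; ring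
      rw [this]
      have h4 : (a * c * r ^ 2 + b * d) ^ 2 - 4 * P * r ^ 2 = (a * c * r ^ 2 - b * d) ^ 2 := by
        rw [hPd]; ring
      nlinarith [sq_nonneg (a * c * r ^ 2 - b * d)]
    have e2 : 0 ≤ a * c * r ^ 2 + b * d := by positivity
    have e3 : 0 ≤ 2 * Real.sqrt P * |r| := by positivity
    exact (sq_le_sq₀ e3 e2).1 e1
  have h5 : (a * d + b * c) * r ≥ -((1 + 2 * Real.sqrt P) * |r|) := by
    have : |(a * d + b * c) * r| ≤ (1 + 2 * Real.sqrt P) * |r| := by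
      rw [abs_mul]
      exact mul_le_mul_of_nonneg_right h2 (abs_nonneg _)
    have := neg_abs_le ((a * d + b * c) * r)
    linarith
  have h6 : 0 ≤ a * c * s ^ 2 := by positivity
  have h7 : (a * r + b) * (c * r + d) = a * c * r ^ 2 + (a * d + b * c) * r + b * d := by ring
  nlinarith

theorem XE0_bInf (M : SL(2, ℝ)) (h : M.1 0 0 * M.1 1 0 < 0) :
    ∃ t : ℝ, t < 0 ∧ M • bInf = bPt t := by
  have hc : M.1 1 0 ≠ 0 := by
    intro h0; rw [h0] at h; simp at h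
  refine ⟨M.1 0 0 / M.1 1 0, ?_, ?_⟩
  · have : M.1 0 0 / M.1 1 0 = (M.1 0 0 * M.1 1 0) / (M.1 1 0) ^ 2 := by field_simp
    rw [this]
    exact div_neg_of_neg_of_pos h (by positivity)
  · unfold bInf bPt
    rw [Projectivization.smul_mk, Projectivization.mk_eq_mk_iff']
    refine ⟨M.1 1 0, ?_⟩
    change M.1 1 0 • ![M.1 0 0 / M.1 1 0, 1] = M.1 *ᵥ ![1, 0]
    ext i
    fin_cases i
    · simp [Matrix.mulVec, dotProduct, Fin.sum_univ_two]
      field_simp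
    · simp [Matrix.mulVec, dotProduct, Fin.sum_univ_two]

theorem XE0_bZero (M : SL(2, ℝ)) (h : M.1 0 1 * M.1 1 1 < 0) :
    ∃ t : ℝ, t < 0 ∧ M • bZero = bPt t := by
  have hc : M.1 1 1 ≠ 0 := by
    intro h0; rw [h0] at h; simp at h
  refine ⟨M.1 0 1 / M.1 1 1, ?_, ?_⟩
  · have : M.1 0 1 / M.1 1 1 = (M.1 0 1 * M.1 1 1) / (M.1 1 1) ^ 2 := by field_simp
    rw [this]
    exact div_neg_of_neg_of_pos h (by positivity)
  · unfold bZero bPt
    rw [Projectivization.smul_mk, Projectivization.mk_eq_mk_iff']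
    refine ⟨M.1 1 1, ?_⟩
    change M.1 1 1 • ![M.1 0 1 / M.1 1 1, 1] = M.1 *ᵥ ![0, 1]
    ext i
    fin_cases i
    · simp [Matrix.mulVec, dotProduct, Fin.sum_univ_two]
      field_simp
    · simp [Matrix.mulVec, dotProduct, Fin.sum_univ_two]

theorem XE0_neg_smul (g : SL(2, ℝ)) (z : ℍ) : (-g) • z = g • z := by
  obtain ⟨a1, a2⟩ := PT1_re_im (-g) z
  obtain ⟨b1, b2⟩ := PT1_re_im g z
  have hn : ∀ i j, (-g).1 i j = -(g.1 i j) := fun i j => rfl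
  have hD : PT1_D (-g) z = PT1_D g z := by
    unfold PT1_D
    rw [hn, hn]; ring
  rw [hD, hn, hn, hn, hn] at a1
  rw [hD] at a2
  refine UpperHalfPlane.ext ?_
  refine Complex.ext ?_ ?_
  · change (-g • z).re = (g • z).re
    rw [a1, b1]; ring
  · change (-g • z).im = (g • z).im
    rw [a2, b2]

/-- there is a nontrivial element -/
theorem XE0_nontrivial (Γ : Subgroup SL(2, ℝ)) (hΓ : IsClosedSurfaceGroup Γ) :
    ∃ γ ∈ Γ, ¬ PEq γ 1 := by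
  obtain ⟨K, hK, hco⟩ := hΓ.cocompact
  have hcont : ContinuousOn (fun z : ℍ => z.im) K := UpperHalfPlane.continuous_im.continuousOn
  obtain ⟨C, hC⟩ := hK.bddAbove_image hcont
  have hpos : 0 < |C| + 1 := by positivity
  let z : ℍ := ⟨⟨0, |C| + 1⟩, hpos⟩
  obtain ⟨γ, hγ, hz⟩ := hco z
  refine ⟨γ, hγ, ?_⟩
  intro h
  have hzz : γ • z = z := by
    rcases h with h | h
    · rw [h, one_smul]
    · rw [h]
      rw [XE0_neg_smul, one_smul]
  rw [hzz] at hz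
  have h1 : z.im ≤ C := hC ⟨z, hz, rfl⟩
  have h2 : z.im = |C| + 1 := rfl
  rw [h2] at h1
  have := le_abs_self C
  linarith

/-- an attracting point of an element in a given interval -/
theorem XE0 (h6 : BD6_stmt) (h7 : BD7_stmt) (h8 : BD8_stmt) (g6 : GM6_stmt) : XE0_stmt := by
  intro Γ hΓ x y hxy
  obtain ⟨g, hg, hgn⟩ := XE0_nontrivial Γ hΓ
  obtain ⟨d, hd, -⟩ := g6 Γ hΓ g hg hgn
  obtain ⟨f1, f2, f3, f4, f5, f6, f7⟩ := h6
  obtain ⟨F, hF⟩ := f1 (x, y) hxy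
  obtain ⟨D, hD⟩ := f1 d hd.1
  obtain ⟨K, hK, hco⟩ := hΓ.cocompact
  -- bound on the compact set
  have hcont : ContinuousOn (fun z : ℍ => |(D⁻¹ • z : ℍ).re| / (D⁻¹ • z : ℍ).im) K := by
    have h1 : Continuous (fun z : ℍ => (D⁻¹ • z : ℍ)) := continuous_const_smul D⁻¹
    have h2 : Continuous (fun z : ℍ => |(D⁻¹ • z : ℍ).re| / (D⁻¹ • z : ℍ).im) := by
      refine Continuous.div ?_ ?_ ?_
      · exact (UpperHalfPlane.continuous_re.comp h1).abs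
      · exact UpperHalfPlane.continuous_im.comp h1
      · intro z; exact (D⁻¹ • z : ℍ).im_ne_zero
    exact h2.continuousOn
  obtain ⟨C, hC⟩ := hK.bddAbove_image hcont
  obtain ⟨n, hn⟩ := exists_nat_gt C
  have hone : (0 : ℝ) < 1 := one_pos
  let ζ : ℍ := ⟨⟨-(n : ℝ), 1⟩, hone⟩
  have hζr : ζ.re = -(n : ℝ) := rfl
  have hζi : ζ.im = 1 := rfl
  obtain ⟨γ, hγ, hz⟩ := hco (F • ζ)
  set v : ℍ := D⁻¹ • (γ • (F • ζ)) with hv
  have hvC : |v.re| / v.im ≤ C := hC ⟨_, hz, rfl⟩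
  set M : SL(2, ℝ) := F⁻¹ * γ⁻¹ * D with hM
  have hMv : M • v = ζ := by
    rw [hv, hM, ← mul_smul, ← mul_smul, ← mul_smul]
    have : F⁻¹ * γ⁻¹ * D * D⁻¹ * γ * F = 1 := by group
    rw [this, one_smul]
  have hM1 : F • (M • bInf) = γ⁻¹ • d.1 := by
    rw [hM, ← hD.1, ← mul_smul, ← mul_smul]
    congr 1
    group
  have hM2 : F • (M • bZero) = γ⁻¹ • d.2 := by
    rw [hM, ← hD.2, ← mul_smul, ← mul_smul]
    congr 1
    group
  obtain ⟨e1, e2, e3, e4, e5, e6, e7, -⟩ := h8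
  have hiff := (h7.1 F (x, y))
  have key1 : M.1 0 0 * M.1 1 0 < 0 → ∃ γ ∈ Γ, ∃ p, Attracts γ p ∧ Cyc x p.1 y := by
    intro h
    obtain ⟨t, ht, hMt⟩ := XE0_bInf M h
    rw [hMt] at hM1
    have hc : Cyc x (γ⁻¹ • d.1) y := ((hiff (γ⁻¹ • d.1) hF).1).2 ⟨t, ht, hM1.symm⟩
    exact ⟨γ⁻¹ * g * (γ⁻¹)⁻¹, Γ.mul_mem (Γ.mul_mem (Γ.inv_mem hγ) hg)
      (Γ.inv_mem (Γ.inv_mem hγ)), (γ⁻¹ • d.1, γ⁻¹ • d.2), e6 g γ⁻¹ d hd, hc⟩
  have key2 : M.1 0 1 * M.1 1 1 < 0 → ∃ γ ∈ Γ, ∃ p, Attracts γ p ∧ Cyc x p.1 y := by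
    intro h
    obtain ⟨t, ht, hMt⟩ := XE0_bZero M h
    rw [hMt] at hM2
    have hc : Cyc x (γ⁻¹ • d.2) y := ((hiff (γ⁻¹ • d.2) hF).1).2 ⟨t, ht, hM2.symm⟩
    exact ⟨γ⁻¹ * g⁻¹ * (γ⁻¹)⁻¹, Γ.mul_mem (Γ.mul_mem (Γ.inv_mem hγ) (Γ.inv_mem hg))
      (Γ.inv_mem (Γ.inv_mem hγ)), (γ⁻¹ • d.2, γ⁻¹ • d.1), e6 g⁻¹ γ⁻¹ (d.2, d.1) (e7 g d hd), hc⟩
  by_cases c1 : M.1 0 0 * M.1 1 0 < 0
  · exact key1 c1
  by_cases c2 : M.1 0 1 * M.1 1 1 < 0
  · exact key2 c2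
  exfalso
  push Not at c1 c2
  have hdet := PT1_det M
  obtain ⟨r1, r2⟩ := PT1_re_im M v
  rw [hMv, hζr] at r1
  rw [hMv, hζi] at r2
  have hDp := PT1_D_pos M v
  have hDv : PT1_D M v = v.im := by
    rw [eq_div_iff hDp.ne'] at r2
    linarith
  rw [hDv, eq_div_iff v.im_ne_zero] at r1
  have hineq := XE0_ineq (M.1 0 0) (M.1 0 1) (M.1 1 0) (M.1 1 1) v.re v.im n v.im_pos hdet c1 c2
    (by linarith)
  have hle : (n : ℝ) ≤ |v.re| / v.im := by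
    rw [le_div_iff₀ v.im_pos]
    exact hineq
  linarith

end AdSBend
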